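import Pool.Agent.N783.PF.Lat
import Pool.Agent.N530.PQ.GapSq

/-!
# Project PF (helper783), part LB (helper438): from the lattice to a bad polynomial

Adapted from `Pool.Agent.N134.PQ.LBZ` of helper134.
-/

set_option autoImplicit false
set_option linter.all false

open Polynomial IsDedekindDomain Matrix NumberField
open scoped Classical

namespace Pool.Agent.N438.PF

open Pool.Agent.N783.PF
open Pool.Agent.N352.PJ (Mt Typ dd)
open Pool.Agent.N783.PQ (chp form Dist Gap Mid Deep eA eB eU uu)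

/-! ### sizes -/

section size

variable {F : Type} [Field F] [NumberField F]

theorem norm_le (x : 𝓞 F) {R : ℝ} (hx : Bd (x : F) R) :
    (Ideal.absNorm (Ideal.span {x}) : ℝ) ≤ R ^ Module.finrank ℚ F := by
  have h1 : (Ideal.absNorm (Ideal.span {x}) : ℝ) = ‖((Algebra.norm ℚ (x : F) : ℚ) : ℂ)‖ := by
    have : (((Algebra.norm ℤ x : ℤ) : ℚ) : ℂ) = ((Algebra.norm ℤ x : ℤ) : ℂ) := by norm_num
    rw [Ideal.absNorm_span_singleton, ← Algebra.coe_norm_int, Nat.cast_natAbs, this,
      Complex.norm_intCast, Int.cast_abs]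
  have h2 : ((Algebra.norm ℚ (x : F) : ℚ) : ℂ) = ∏ σ : F →ₐ[ℚ] ℂ, σ (x : F) :=
    Algebra.norm_eq_prod_embeddings ℚ ℂ (x : F)
  rw [h1, h2, norm_prod]
  calc ∏ σ : F →ₐ[ℚ] ℂ, ‖σ (x : F)‖ ≤ ∏ σ : F →ₐ[ℚ] ℂ, R :=
        Finset.prod_le_prod (fun σ _ => norm_nonneg _) fun σ _ => hx σ.toRingHom
    _ = R ^ Module.finrank ℚ F := by
      rw [Finset.prod_const, Finset.card_univ, AlgHom.card]

theorem norm_pos {x : 𝓞 F} (hx : x ≠ 0) : 1 ≤ Ideal.absNorm (Ideal.span {x}) := by
  rw [Nat.one_le_iff_ne_zero, Ne, Ideal.absNorm_eq_zero_iff, Ideal.span_singleton_eq_bot]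
  exact hx

theorem Bd_nonneg {x : F} {R : ℝ} (hx : Bd x R) : 0 ≤ R := by
  obtain ⟨σ⟩ : Nonempty (F →+* ℂ) := inferInstance
  exact (norm_nonneg _).trans (hx σ)

theorem zero_of_Bd {x : 𝓞 F} {R : ℝ} (hx : Bd (x : F) R) (hR : R < 1) : x = 0 := by
  by_contra h
  have h1 := norm_le x hx
  have h2 : (1 : ℝ) ≤ Ideal.absNorm (Ideal.span {x}) := by exact_mod_cast norm_pos h
  have h3 : R ^ Module.finrank ℚ F < 1 :=
    pow_lt_one₀ (Bd_nonneg hx) hR (Module.finrank_pos).ne'
  linarith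

theorem zero_of_z {x : 𝓞 F} {z : ℤ} (hx : Bd (x : F) ((2 : ℝ) ^ z)) (hz : z < 0) : x = 0 :=
  zero_of_Bd hx (zpow_lt_one_of_neg₀ (by norm_num) hz)

end size

section gen

variable {F L : Type} [Field F] [NumberField F] [Field L] [NumberField L] [Algebra F L]
variable {g : ℕ} {f : (𝓞 F)[X]} {θ : L}

/-- `f` is the minimal polynomial -/
theorem irrF (h : IsGen g f θ) : Irreducible (fF f) := by
  let pb : PowerBasis F L := ⟨θ, 2 * g + 1, h.basis, fun i => h.basis_apply i⟩
  have hdeg : (minpoly F θ).natDegree = 2 * g + 1 := pb.natDegree_minpoly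
  have hint : IsIntegral F θ := pb.isIntegral_gen
  have hmon : (fF f).Monic := h.mon.map _
  have hd : minpoly F θ ∣ fF f := minpoly.dvd F θ h.root
  have he : fF f = minpoly F θ :=
    Polynomial.eq_of_monic_of_dvd_of_natDegree_le (minpoly.monic hint) hmon hd (by
      rw [hdeg, h.mon.natDegree_map, h.deg])
  rw [he]
  exact minpoly.irreducible hint

theorem top_pow (h : IsGen g f θ) (i : ℕ) (hi : i ≤ 2 * g) :
    h.top (θ ^ i) = if i = 2 * g then 1 else 0 := by
  have h1 : θ ^ i = h.basis ⟨i, by omega⟩ := (h.basis_apply ⟨i, by omega⟩).symm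
  rw [h1, IsGen.top, Module.Basis.coord_apply, Module.Basis.repr_self, Finsupp.single_apply]
  by_cases h2 : i = 2 * g
  · rw [if_pos h2, if_pos (Fin.ext (by simp [h2]))]
  · rw [if_neg h2, if_neg (fun h3 => h2 (by simpa using congrArg Fin.val h3))]

theorem const_of_top (h : IsGen g f θ) (y : L) (hy : ∀ m < 2 * g, h.top (θ ^ m * y) = 0) :
    y = algebraMap F L (h.top (θ ^ (2 * g) * y)) := by
  obtain ⟨c, hc⟩ : ∃ c : Fin (2 * g + 1) → F, c = fun i => h.basis.repr y i := ⟨_, rfl⟩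
  have hsum : y = ∑ i, (c i) • θ ^ (i : ℕ) := by
    conv_lhs => rw [← h.basis.sum_repr y]
    rw [hc]
    exact Finset.sum_congr rfl fun i _ => by rw [h.basis_apply]
  have key : ∀ m : ℕ, (hm : m ≤ 2 * g) → (∀ i : Fin (2 * g + 1), 2 * g < i + m → c i = 0) →
      h.top (θ ^ m * y) = c ⟨2 * g - m, by omega⟩ := by
    intro m hm hz
    rw [hsum, Finset.mul_sum, map_sum,
      Finset.sum_eq_single (⟨2 * g - m, by omega⟩ : Fin (2 * g + 1))]
    · rw [mul_smul_comm, map_smul, ← pow_add, top_pow h _ (by simp only; omega),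
        if_pos (by simp only; omega), smul_eq_mul, mul_one]
    · intro i _ hi
      rw [mul_smul_comm, map_smul, ← pow_add]
      by_cases h1 : 2 * g < i + m
      · rw [hz i h1, zero_smul]
      · rw [top_pow h _ (by omega), if_neg (by intro h2; apply hi; apply Fin.ext; simp only; omega),
          smul_zero]
    · intro h1
      exact absurd (Finset.mem_univ _) h1
  have hz : ∀ m : ℕ, m ≤ 2 * g → ∀ i : Fin (2 * g + 1), 2 * g < i + m → c i = 0 := by
    intro m
    induction m with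
    | zero =>
      intro _ i hi
      have := i.2
      omega
    | succ m ih =>
      intro hm i hi
      by_cases h1 : 2 * g < i + m
      · exact ih (by omega) i h1
      · have h2 := key m (by omega) (ih (by omega))
        rw [hy m (by omega)] at h2
        rw [show i = ⟨2 * g - m, by omega⟩ from Fin.ext (by simp only; omega)]
        exact h2.symm
  rw [key (2 * g) le_rfl (hz (2 * g) le_rfl)]
  conv_lhs => rw [hsum]
  rw [Finset.sum_eq_single (⟨2 * g - 2 * g, by omega⟩ : Fin (2 * g + 1))]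
  · simp only [Nat.sub_self, pow_zero]
    rw [Algebra.smul_def, mul_one]
  · intro i _ hi
    rw [hz (2 * g) le_rfl i, zero_smul]
    by_contra h1
    apply hi
    apply Fin.ext
    simp only
    omega
  · intro h1
    exact absurd (Finset.mem_univ _) h1

theorem int_of_sq (hr : Module.finrank F L = 2 * g + 1) (x : L) (q : F) (hq : IsIntegral ℤ q)
    (hx : x ^ 2 = algebraMap F L q) : ∃ j : 𝓞 F, algebraMap F L (j : F) = x := by
  have hintQ : IsIntegral F x := ⟨X ^ 2 - C q, monic_X_pow_sub_C q two_ne_zero, by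
    rw [eval₂_sub, eval₂_X_pow, eval₂_C, hx, sub_self]⟩
  have hdiv : minpoly F x ∣ X ^ 2 - C q := minpoly.dvd F x (by
    rw [map_sub, map_pow, aeval_X, aeval_C, hx, sub_self])
  have hd1 : (minpoly F x).natDegree ≤ 2 := by
    have := natDegree_le_of_dvd hdiv (X_pow_sub_C_ne_zero two_pos _)
    rwa [natDegree_X_pow_sub_C] at this
  have hfd : FiniteDimensional F L := Module.finite_of_finrank_pos (by omega)
  have hd2 : (minpoly F x).natDegree ∣ 2 * g + 1 := hr ▸ minpoly.degree_dvd hintQ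
  have hd3 := minpoly.natDegree_pos hintQ
  have hd4 : (minpoly F x).natDegree = 1 := by
    rcases (show (minpoly F x).natDegree = 1 ∨ (minpoly F x).natDegree = 2 by omega) with h | h
    · exact h
    · rw [h] at hd2
      omega
  obtain ⟨r, hr'⟩ := minpoly.mem_range_of_degree_eq_one F x (by
    rw [degree_eq_natDegree (minpoly.ne_zero hintQ), hd4]; rfl)
  have hrq : r ^ 2 = q := by
    apply (algebraMap F L).injective
    rw [map_pow, hr', hx]
  have hrint : IsIntegral ℤ r := by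
    refine IsIntegral.of_pow two_pos ?_
    rw [hrq]
    exact hq
  exact ⟨⟨r, hrint⟩, hr'⟩

theorem one_le_B {B : ℕ} (hg : 1 ≤ g) (h : IsGen g f θ) (hH : Ht g B f) : 1 ≤ B := by
  by_contra hB
  have hB0 : B = 0 := by omega
  subst hB0
  have h0 : ∀ j ≤ 2 * g, f.coeff j = 0 := by
    intro j hj
    have := hH.ht j hj
    rw [Nat.cast_zero, zero_pow (by omega)] at this
    exact zero_of_Bd this one_pos
  have hf : f = X ^ (2 * g + 1) := by
    ext1
    rename_i j
    rw [coeff_X_pow]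
    rcases lt_trichotomy j (2 * g + 1) with h1 | h1 | h1
    · rw [if_neg (by omega), h0 j (by omega)]
    · rw [if_pos h1, h1, ← hH.deg]
      exact hH.mon
    · rw [if_neg (by omega), coeff_eq_zero_of_natDegree_lt (by rw [hH.deg]; omega)]
  have h1 := irrF h
  rw [fF, hf, Polynomial.map_pow, map_X] at h1
  exact (not_irreducible_pow (by omega : 2 * g + 1 ≠ 1)) h1

theorem HH_nonneg (α x : L) : 0 ≤ HH f θ α x := by
  unfold HH
  exact Finset.sum_nonneg fun τ _ => by positivity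

end gen

theorem four_zpow (z : ℤ) : (4 : ℝ) ^ z = ((2 : ℝ) ^ z) ^ 2 := by
  rw [show (4 : ℝ) = 2 ^ (2 : ℤ) by norm_num, ← _root_.zpow_mul, ← zpow_natCast,
    ← _root_.zpow_mul, mul_comm]
  rfl

theorem prod_zpow2 {ι : Type} (s : Finset ι) (n : ι → ℤ) :
    ∏ i ∈ s, (2 : ℝ) ^ n i = (2 : ℝ) ^ ∑ i ∈ s, n i := by
  induction s using Finset.induction_on with
  | empty => simp
  | insert a s ha ih =>
    rw [Finset.prod_insert ha, Finset.sum_insert ha, ih, zpow_add₀ (by norm_num)]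

theorem sum_typ {g : ℕ} {w : Fin (2 * g + 1) → ℤ} (hw : Typ g w) : ∑ i, w i = 0 := by
  have h1 : ∑ i, w i = ∑ i, w (Fin.rev i) := (Equiv.sum_comp Fin.revPerm w).symm
  have h2 : ∑ i, w (Fin.rev i) = - ∑ i, w i := by
    rw [← Finset.sum_neg_distrib]
    exact Finset.sum_congr rfl fun i _ => hw.anti i
  omega

/-- the size of the determinant -/
theorem det_le' {F : Type} [Field F] [NumberField F] {g C : ℕ} {w : Fin (2 * g + 1) → ℤ}
    (hw : Typ g w) {A : Mt g (𝓞 F)}
    (hA : ∀ i j, Bd (A i j : F) ((2 : ℝ) ^ (2 * (C : ℤ) + w i + w j))) :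
    Bd (A.det : F) (((2 * g + 1).factorial * 2 ^ (2 * C * (2 * g + 1)) : ℕ) : ℝ) := by
  intro σ
  have h1 : σ (A.det : F) = ∑ π : Equiv.Perm (Fin (2 * g + 1)),
      Equiv.Perm.sign π • ∏ i, σ ((A (π i) i : 𝓞 F) : F) := by
    have h2 : σ (A.det : F) = (A.map fun a : 𝓞 F => σ (a : F)).det := by
      have h3 := RingHom.map_det (σ.comp (algebraMap (𝓞 F) F)) A
      exact h3
    rw [h2, Matrix.det_apply]
    rfl
  rw [h1]
  have h3 : ∀ π : Equiv.Perm (Fin (2 * g + 1)),
      ‖Equiv.Perm.sign π • ∏ i, σ ((A (π i) i : 𝓞 F) : F)‖ ≤ (2 : ℝ) ^ (2 * C * (2 * g + 1)) := by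
    intro π
    have h4 : ‖Equiv.Perm.sign π • ∏ i, σ ((A (π i) i : 𝓞 F) : F)‖ =
        ∏ i, ‖σ ((A (π i) i : 𝓞 F) : F)‖ := by
      rcases Int.units_eq_one_or (Equiv.Perm.sign π) with h5 | h5
      · rw [h5, one_smul, norm_prod]
      · rw [h5, Units.neg_smul, one_smul, norm_neg, norm_prod]
    rw [h4]
    calc ∏ i, ‖σ ((A (π i) i : 𝓞 F) : F)‖ ≤ ∏ i, (2 : ℝ) ^ (2 * (C : ℤ) + w (π i) + w i) :=
          Finset.prod_le_prod (fun i _ => norm_nonneg _) fun i _ => hA (π i) i σ
      _ = (2 : ℝ) ^ (2 * C * (2 * g + 1)) := by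
        rw [prod_zpow2, Finset.sum_add_distrib, Finset.sum_add_distrib,
          Equiv.sum_comp π w, sum_typ hw, Finset.sum_const, Finset.card_univ, Fintype.card_fin,
          ← zpow_natCast]
        congr 1
        push_cast
        rw [nsmul_eq_mul]
        push_cast
        ring
  calc ‖∑ π : Equiv.Perm (Fin (2 * g + 1)), Equiv.Perm.sign π •
        ∏ i, σ ((A (π i) i : 𝓞 F) : F)‖
      ≤ ∑ π : Equiv.Perm (Fin (2 * g + 1)), (2 : ℝ) ^ (2 * C * (2 * g + 1)) :=
        norm_sum_le_of_le _ fun π _ => h3 π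
    _ = (((2 * g + 1).factorial * 2 ^ (2 * C * (2 * g + 1)) : ℕ) : ℝ) := by
      rw [Finset.sum_const, Finset.card_univ, Fintype.card_perm, Fintype.card_fin, nsmul_eq_mul]
      push_cast
      ring

/-- **PF/LB** -/
theorem lb (h1 : S_TYP) (h2 : S_MAJ) (h3 : S_CHI) (h4 : S_SQ) : S_LB := by
  intro g F _ _ hg
  obtain ⟨C, hC⟩ := h1 g F
  obtain ⟨K0, hK0⟩ : ∃ K0 : ℕ, K0 =
    ((2 * g + 1).factorial * 2 ^ (2 * C * (2 * g + 1))) ^ Module.finrank ℚ F := ⟨_, rfl⟩
  refine ⟨2 * C + 2 * g + 2 + K0, ?_⟩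
  obtain ⟨κ, hκ⟩ : ∃ κ, κ = 2 * C + 2 * g + 2 + K0 := ⟨_, rfl⟩
  rw [← hκ]
  intro L _ _ _ f θ B N W S 𝔮 h P hκW hS hG hHt hBN hcg α Λ hα hnorm hLat hdist hor
  have hB1 : 1 ≤ B := one_le_B hg hG hHt
  have hκN : κ ≤ 2 * N := by
    have t1 : 2 ^ κ ≤ 4 ^ N := le_trans (Nat.le_mul_of_pos_right _ hB1) hBN
    rw [show (4 : ℕ) = 2 ^ 2 by norm_num, ← pow_mul] at t1
    exact (Nat.pow_le_pow_iff_right (by norm_num)).1 t1
  have hBN1 : (B : ℝ) ≤ 4 ^ N := by
    have t1 : B ≤ 4 ^ N := le_trans (Nat.le_mul_of_pos_left _ (by positivity)) hBN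
    exact_mod_cast t1
  have hB0 : (1 : ℝ) ≤ B := by exact_mod_cast hB1
  obtain ⟨e, w, heΛ, hli, hTyp, hew⟩ := hC hg B L f θ hG α Λ hHt hα hLat
  obtain ⟨A, A', hGr, sA, sA', hdet0, hchp, htr, hdet, hmod⟩ :=
    h3 g F L f θ hG α Λ e hHt.tr hα hLat heΛ hli
  obtain ⟨hmaj, hmaj2⟩ := h2 g B F L f θ hg hG hHt
  obtain ⟨x, hx0, hxd⟩ := hdet hnorm
  -- bounds
  have bA' : ∀ i j, Bd (A i j : F) ((2 : ℝ) ^ (2 * (C : ℤ) + w i + w j)) := by
    intro i j σ
    have t1 := hmaj α hα σ 0 (e i) (e j)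
    rw [pow_zero, one_mul, mul_zero, pow_zero, one_mul, ← hGr.gA] at t1
    have t2 : HH f θ α (e i) * HH f θ α (e j) ≤ ((2 : ℝ) ^ (2 * (C : ℤ) + w i + w j)) ^ 2 := by
      refine (mul_le_mul (hew i) (hew j) (HH_nonneg _ _) (by positivity)).trans (le_of_eq ?_)
      rw [← zpow_add₀ (by norm_num), ← four_zpow]
      congr 1
      ring
    exact (sq_le_sq₀ (norm_nonneg _) (by positivity)).1 (t1.trans t2)
  have bA : ∀ i j, Bd (A i j : F) ((2 : ℝ) ^ ((κ : ℤ) + w i + w j)) := by
    intro i j σ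
    refine (bA' i j σ).trans (zpow_le_zpow_right₀ (by norm_num) ?_)
    rw [hκ]
    push_cast
    have : (0 : ℤ) ≤ g := by positivity
    have : (0 : ℤ) ≤ K0 := by positivity
    linarith
  have bB : ∀ i j, Bd (A' i j : F) ((2 : ℝ) ^ (2 * (N : ℤ) + w i + w j)) := by
    intro i j σ
    have t1 := hmaj α hα σ 1 (e i) (e j)
    rw [pow_one, mul_one, ← hGr.gB] at t1
    have t2 : (2 * B : ℝ) ^ 2 * (HH f θ α (e i) * HH f θ α (e j)) ≤
        ((2 * (B : ℝ)) * (2 : ℝ) ^ (2 * (C : ℤ) + w i + w j)) ^ 2 := by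
      rw [mul_pow (2 * (B : ℝ)) _]
      refine mul_le_mul_of_nonneg_left ?_ (sq_nonneg _)
      refine (mul_le_mul (hew i) (hew j) (HH_nonneg _ _) (by positivity)).trans (le_of_eq ?_)
      rw [← zpow_add₀ (by norm_num), ← four_zpow]
      congr 1
      ring
    have t3 := (sq_le_sq₀ (norm_nonneg _) (by positivity)).1 (t1.trans t2)
    refine t3.trans ?_
    have t4 : (2 * (B : ℝ)) * (2 : ℝ) ^ (2 * (C : ℤ)) ≤ (2 : ℝ) ^ (2 * (N : ℤ)) := by
      have t5 : 2 * B * 2 ^ (2 * C) ≤ 2 ^ (2 * N) := by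
        calc 2 * B * 2 ^ (2 * C) = 2 ^ (2 * C + 1) * B := by ring
          _ ≤ 2 ^ κ * B := Nat.mul_le_mul_right _ (Nat.pow_le_pow_right (by norm_num) (by omega))
          _ ≤ 4 ^ N := hBN
          _ = 2 ^ (2 * N) := by rw [show (4 : ℕ) = 2 ^ 2 by norm_num, ← pow_mul]
      exact_mod_cast t5
    calc 2 * (B : ℝ) * (2 : ℝ) ^ (2 * (C : ℤ) + w i + w j)
        = (2 * (B : ℝ)) * (2 : ℝ) ^ (2 * (C : ℤ)) * (2 : ℝ) ^ (w i + w j) := by
          rw [add_assoc, zpow_add₀ (by norm_num)]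
          ring
      _ ≤ (2 : ℝ) ^ (2 * (N : ℤ)) * (2 : ℝ) ^ (w i + w j) :=
          mul_le_mul_of_nonneg_right t4 (by positivity)
      _ = (2 : ℝ) ^ (2 * (N : ℤ) + w i + w j) := by
          rw [add_assoc, ← zpow_add₀ (by norm_num)]
  -- the size of x
  have hxn : Ideal.absNorm (Ideal.span {x}) ≤ K0 := by
    have t1 : Bd ((x ^ 2 : 𝓞 F) : F) (((2 * g + 1).factorial * 2 ^ (2 * C * (2 * g + 1)) : ℕ) : ℝ) := by
      intro σ
      have t2 := det_le' hTyp bA' σ
      rw [hxd] at t2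
      have t3 : ‖σ (((-1) ^ g * x ^ 2 : 𝓞 F) : F)‖ = ‖σ ((x ^ 2 : 𝓞 F) : F)‖ := by
        rcases neg_one_pow_eq_or (𝓞 F) g with t4 | t4
        · rw [t4, one_mul]
        · rw [t4, neg_one_mul]
          simp
      rwa [t3] at t2
    have t2 := norm_le _ t1
    have t3 : Ideal.absNorm (Ideal.span {x ^ 2}) ≤ K0 := by
      rw [hK0]
      exact_mod_cast t2
    refine le_trans ?_ t3
    have t4 : Ideal.span {x ^ 2} = Ideal.span {x} * Ideal.span {x} := by
      rw [Ideal.span_singleton_mul_span_singleton, sq]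
    rw [t4, map_mul]
    exact Nat.le_mul_of_pos_left _ (norm_pos hx0)
  have hnp : ∀ q ∈ S, ∀ 𝔭 : Ideal (𝓞 F), 𝔭.IsPrime → (q : 𝓞 F) ∈ 𝔭 → A.det ∉ 𝔭 := by
    intro q hq 𝔭 hp hqp hcon'
    obtain ⟨hqP, hWq, -⟩ := hS q hq
    rw [hxd] at hcon'
    have hxp : x ∈ 𝔭 := by
      rcases hp.mem_or_mem hcon' with t | t
      · exfalso
        apply hp.ne_top
        rw [Ideal.eq_top_iff_one]
        have t2 := 𝔭.mul_mem_left ((-1) ^ g) t
        rwa [← mul_pow, neg_one_mul, neg_neg, one_pow] at t2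
      · exact hp.mem_of_pow_mem 2 t
    have hap : ((Ideal.absNorm (Ideal.span {x}) : ℕ) : 𝓞 F) ∈ 𝔭 :=
      (Ideal.span_singleton_le_iff_mem 𝔭).2 hxp (Ideal.absNorm_mem _)
    have hqa : q ∣ Ideal.absNorm (Ideal.span {x}) := by
      by_contra t
      have t1 : IsCoprime (q : ℤ) (Ideal.absNorm (Ideal.span {x}) : ℤ) :=
        Nat.isCoprime_iff_coprime.2 ((Nat.Prime.coprime_iff_not_dvd hqP).2 t)
      obtain ⟨a, b, hab⟩ := t1
      apply hp.ne_top
      rw [Ideal.eq_top_iff_one]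
      have t2 : (1 : 𝓞 F) = (a : 𝓞 F) * (q : 𝓞 F) +
          (b : 𝓞 F) * ((Ideal.absNorm (Ideal.span {x}) : ℕ) : 𝓞 F) := by
        have := congrArg (fun z : ℤ => (z : 𝓞 F)) hab
        push_cast at this
        exact this.symm
      rw [t2]
      exact 𝔭.add_mem (𝔭.mul_mem_left _ hqp) (𝔭.mul_mem_left _ hap)
    have t1 := Nat.le_of_dvd (norm_pos hx0) hqa
    omega
  have hnb : ∀ q ∈ S, ∀ 𝔭 : Ideal (𝓞 F), (q : 𝓞 F) ∈ 𝔭 → 𝔭 ≠ ⊥ := by
    intro q hq 𝔭 hqp hb
    rw [hb, Ideal.mem_bot] at hqp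
    have : (q : 𝓞 F) ≠ 0 := Nat.cast_ne_zero.2 (hS q hq).1.ne_zero
    exact this hqp
  -- the type
  refine ⟨irrF hG, w, hTyp, ?_, ?_, A, A', ⟨⟨sA, sA', ⟨x, hx0, hxd, ?_⟩, htr, bA, bB⟩, ?_, ?_⟩,
    hchp⟩
  · -- gaps
    intro i j hij
    by_contra hcon'
    push Not at hcon'
    have hi : (i : ℕ) + 1 < 2 * g + 1 := by
      rw [← hij]
      exact j.2
    obtain ⟨a, ha, b, hb, hab⟩ := Pool.Agent.N530.PQ.gap g F (mF A) (mF A')
      (by
        have := congrArg (fun M : Mt g (𝓞 F) => M.map (algebraMap (𝓞 F) F)) sA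
        simpa [Matrix.IsSymm, Matrix.transpose_map] using this)
      (by
        have := congrArg (fun M : Mt g (𝓞 F) => M.map (algebraMap (𝓞 F) F)) sA'
        simpa [Matrix.IsSymm, Matrix.transpose_map] using this)
      (by
        have t : (mF A).det = algebraMap (𝓞 F) F A.det := (RingHom.map_det _ _).symm
        rw [t]
        intro t0
        apply hdet0
        exact (map_eq_zero_iff _ (FaithfulSMul.algebraMap_injective (𝓞 F) F)).1 t0)
      (by rw [hchp]; exact irrF hG)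
      i ⟨2 * g - 1 - i, by omega⟩ (by simp only; omega)
    have t2 := hTyp.mono ha
    have t3 := hTyp.mono hb
    have t4 : (⟨2 * g - 1 - i, by omega⟩ : Fin (2 * g + 1)) = Fin.rev j := by
      apply Fin.ext
      rw [Fin.val_rev]
      simp only
      omega
    rw [t4, hTyp.anti] at t3
    have z1 : A a b = 0 := zero_of_z (bA a b) (by
      have : (κ : ℤ) ≤ 2 * N := by exact_mod_cast hκN
      linarith)
    have z2 : A' a b = 0 := zero_of_z (bB a b) (by linarith)
    rcases hab with hab | hab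
    · apply hab
      change algebraMap (𝓞 F) F (A a b) = 0
      rw [z1, map_zero]
    · apply hab
      change algebraMap (𝓞 F) F (A' a b) = 0
      rw [z2, map_zero]
  · -- the middle gap or the depth
    rcases hor with hns | ⟨rfl, hj⟩
    · left
      intro i hi
      by_contra hcon'
      push Not at hcon'
      apply hns
      have hz : ∀ a b : Fin (2 * g + 1), (a : ℕ) < g → (b : ℕ) < g → A a b = 0 ∧ A' a b = 0 := by
        intro a b ha hb
        have t2 := hTyp.mono (show a ≤ i from Fin.le_def.2 (by omega))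
        have t3 := hTyp.mono (show b ≤ i from Fin.le_def.2 (by omega))
        constructor
        · exact zero_of_z (bA a b) (by
            have : (κ : ℤ) ≤ 2 * N := by exact_mod_cast hκN
            linarith)
        · exact zero_of_z (bB a b) (by linarith)
      refine h4 g F L f θ hg hG α e hα hli ?_ ?_ hnorm
      · intro a b ha hb
        rw [← hGr.gA, (hz a b ha hb).1]
        exact map_zero (algebraMap (𝓞 F) F)
      · intro a b ha hb
        rw [← hGr.gB, (hz a b ha hb).2]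
        exact map_zero (algebraMap (𝓞 F) F)
    · right
      obtain ⟨h0, hh0⟩ : ∃ h0 : ℝ, h0 = HH f θ 1 (e 0) := ⟨_, rfl⟩
      have hle : h0 ≤ (4 : ℝ) ^ ((C : ℤ) + w 0) := by rw [hh0]; exact hew 0
      have hnn : 0 ≤ h0 := by rw [hh0]; exact HH_nonneg _ _
      have hmain : 1 ≤ (4 : ℝ) ^ (2 * g) * (B : ℝ) ^ (2 * g - 1) * h0 := by
        by_cases hc : (2 * B : ℝ) ^ (2 * g - 1) * h0 < 1
        · -- the integers vanish
          have hmem : ∀ m : ℕ, θ ^ m * e 0 ∈ Λ := by
            intro m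
            induction m with
            | zero => rw [pow_zero, one_mul]; exact heΛ 0
            | succ m ih =>
              rw [pow_succ', mul_assoc]
              exact hLat.stab _ ih
          have hint : ∀ m : ℕ, IsIntegral ℤ (hG.top (θ ^ m * e 0 ^ 2)) := by
            intro m
            have t1 := hLat.int _ (hmem m) _ (heΛ 0)
            rwa [div_one, mul_assoc, ← sq] at t1
          have hz : ∀ m < 2 * g, hG.top (θ ^ m * e 0 ^ 2) = 0 := by
            intro m hm
            obtain ⟨y, hy⟩ : ∃ y : 𝓞 F, (y : F) = hG.top (θ ^ m * e 0 ^ 2) :=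
              ⟨⟨_, hint m⟩, rfl⟩
            have t1 : Bd (y : F) ((2 * B : ℝ) ^ (2 * g - 1) * h0) := by
              intro σ
              have t2 := hmaj 1 one_ne_zero σ m (e 0) (e 0)
              rw [div_one, ← sq, ← hh0, ← sq, mul_comm 2 m, pow_mul, ← mul_pow, ← hy] at t2
              have t3 := (sq_le_sq₀ (norm_nonneg _) (by positivity)).1 t2
              refine t3.trans (mul_le_mul_of_nonneg_right ?_ hnn)
              exact pow_le_pow_right₀ (by linarith) (by omega)
            have t2 := zero_of_Bd t1 hc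
            rw [← hy, t2]
            exact map_zero (algebraMap (𝓞 F) F)
          have hc2 := const_of_top hG (e 0 ^ 2) hz
          obtain ⟨j, hjx⟩ := int_of_sq hG.rank (e 0) _ (hint (2 * g)) hc2
          have hj0 : j ≠ 0 := by
            rintro rfl
            apply hli.ne_zero 0
            rw [← hjx]
            exact (congrArg (algebraMap F L) (map_zero (algebraMap (𝓞 F) F))).trans (map_zero _)
          rcases hj j (by rw [hjx]; exact heΛ 0) with t | hj1
          · exact absurd t hj0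
          · have t1 : ∀ σ : F →+* ℂ, ‖σ (j : F)‖ ^ 2 ≤ (4 * B : ℝ) ^ (2 * g) * h0 := by
              intro σ
              have := hmaj2 σ (j : F)
              rwa [hjx, ← hh0] at this
            have t2 : Bd ((j ^ 2 : 𝓞 F) : F) ((4 * B : ℝ) ^ (2 * g) * h0) := by
              intro σ
              have := t1 σ
              rw [← norm_pow, ← map_pow] at this
              exact this
            have t3 := norm_le _ t2
            have t4 : Ideal.span {j ^ 2} = Ideal.span {j} ^ 2 := by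
              rw [Ideal.span_singleton_pow]
            rw [t4, map_pow] at t3
            have t5 : (B : ℝ) ^ Module.finrank ℚ F ≤
                ((4 * B : ℝ) ^ (2 * g) * h0) ^ Module.finrank ℚ F := by
              refine le_trans ?_ t3
              exact_mod_cast hj1
            have t6 : (B : ℝ) ≤ (4 * B : ℝ) ^ (2 * g) * h0 :=
              le_of_pow_le_pow_left₀ (Module.finrank_pos).ne' (by positivity) t5
            have t7 : (B : ℝ) * 1 ≤ B * ((4 : ℝ) ^ (2 * g) * (B : ℝ) ^ (2 * g - 1) * h0) := by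
              rw [mul_one]
              refine t6.trans (le_of_eq ?_)
              have t8 : (B : ℝ) ^ (2 * g) = B * (B : ℝ) ^ (2 * g - 1) := by
                rw [← pow_succ']
                congr 1
                omega
              rw [mul_pow, t8]
              ring
            exact le_of_mul_le_mul_left t7 (by linarith)
        · push Not at hc
          refine hc.trans ?_
          refine mul_le_mul_of_nonneg_right ?_ hnn
          rw [mul_pow]
          refine mul_le_mul_of_nonneg_right ?_ (by positivity)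
          calc (2 : ℝ) ^ (2 * g - 1) ≤ 2 ^ (2 * g) := pow_le_pow_right₀ (by norm_num) (by omega)
            _ ≤ 4 ^ (2 * g) := pow_le_pow_left₀ (by norm_num) (by norm_num) _
      have hexp : 1 ≤ (4 : ℝ) ^ ((2 * g : ℕ) + ((N * (2 * g - 1) : ℕ) : ℤ) + ((C : ℤ) + w 0)) := by
        refine hmain.trans ?_
        rw [zpow_add₀ (by norm_num), zpow_add₀ (by norm_num), zpow_natCast, zpow_natCast]
        refine mul_le_mul ?_ hle hnn (by positivity)
        refine mul_le_mul_of_nonneg_left ?_ (by positivity)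
        rw [pow_mul]
        exact pow_le_pow_left₀ (by linarith) hBN1 _
      have hexp2 : 0 ≤ ((2 * g : ℕ) : ℤ) + ((N * (2 * g - 1) : ℕ) : ℤ) + ((C : ℤ) + w 0) := by
        by_contra t
        push Not at t
        exact absurd (zpow_lt_one_of_neg₀ (by norm_num : (1 : ℝ) < 4) t) (not_lt.2 hexp)
      unfold Deep
      have t1 : ((2 * g - 1 : ℕ) : ℤ) = 2 * g - 1 := by
        rw [Nat.cast_sub (by omega)]
        push_cast
        ring
      rw [Nat.cast_mul N, t1] at hexp2
      rw [hκ]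
      push_cast at hexp2 ⊢
      nlinarith
  · -- the norm of x
    refine hxn.trans ?_
    calc K0 ≤ κ := by omega
      _ ≤ 2 ^ κ := Nat.lt_two_pow_self.le
  · -- congruences
    intro q hq 𝔭 hp hqp
    rw [(hmod 𝔭 hp (hnb q hq 𝔭 hqp) (hnp q hq 𝔭 hp hqp)).1]
    ext1
    rename_i j
    rw [rd, rd, coeff_map, coeff_map, Ideal.Quotient.mk_eq_mk_iff_sub_mem]
    exact (Ideal.span_singleton_le_iff_mem 𝔭).2 hqp (hcg q hq j)
  · -- distinguished
    intro q hq
    obtain ⟨-, -, -, -, -, hp, hqp, -⟩ := hS q hq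
    exact (hmod (𝔮 q) hp (hnb q hq _ hqp) (hnp q hq _ hp hqp)).2 (hdist q hq)

end Pool.Agent.N438.PF
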